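import Pool.Agent.T2H24.GR.Dense
import Pool.Agent.T2H24.SU.Limits

set_option autoImplicit false
set_option linter.unusedSectionVars false
set_option linter.unusedVariables false

/-!
# The induction
-/

namespace Pool.Agent.T2H24.GR

open Filter Topology ComplexConjugate NumberField IsDedekindDomain MeasureTheory
  Pool.Agent.W540.BE Pool.Agent.TH553.RS Pool.Agent.TH553.ST Pool.Agent.H341R2
open scoped Matrix

/-- the trivial representation -/
noncomputable def triv (G : Type) [Group G] [TopologicalSpace G] : Irr G :=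
  ⟨1, 1, continuous_const, fun A _ => ⟨A 0 0, by
    ext i j
    rw [Subsingleton.elim i 0, Subsingleton.elim j 0]
    simp⟩⟩

theorem triv_c {G : Type} [Group G] [TopologicalSpace G] (g : G) : (triv G).c g = 1 := by
  change (1 : Matrix (Fin 1) (Fin 1) ℂ).trace = 1
  simp

theorem mn_const (K : Type) [Field K] [NumberField K] (c : ℂ) :
    Tendsto (mn fun _ : HeightOneSpectrum (𝓞 K) => c) atTop (𝓝 c) := by
  refine tendsto_const_nhds.congr' ?_
  filter_upwards [card_ev (K := K)] with N hN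
  unfold mn
  rw [Finset.sum_const, Complex.real_smul, nsmul_eq_mul]
  push_cast
  have hN' : ((upto K N).card : ℂ) ≠ 0 := by exact_mod_cast hN
  field_simp

/-- the determinant as an element of the circle -/
noncomputable def dt {n : ℕ} : Matrix.unitaryGroup (Fin n) ℂ →* Circle where
  toFun A := ⟨(A : Matrix (Fin n) (Fin n) ℂ).det, by
    have h := Matrix.det_of_mem_unitary A.2
    rw [Unitary.mem_iff] at h
    have h1 := h.1
    rw [Complex.star_def, Complex.conj_mul'] at h1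
    have h2 : ‖(A : Matrix (Fin n) (Fin n) ℂ).det‖ ^ 2 = 1 := by exact_mod_cast h1
    exact mem_sphere_zero_iff_norm.2
      ((pow_eq_one_iff_of_nonneg (norm_nonneg _) two_ne_zero).1 h2)⟩
  map_one' := by
    apply Circle.ext
    change ((1 : Matrix.unitaryGroup (Fin n) ℂ) : Matrix (Fin n) (Fin n) ℂ).det = 1
    rw [Submonoid.coe_one, Matrix.det_one]
  map_mul' A B := by
    apply Circle.ext
    change ((A * B : Matrix.unitaryGroup (Fin n) ℂ) : Matrix (Fin n) (Fin n) ℂ).det =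
      (A : Matrix (Fin n) (Fin n) ℂ).det * (B : Matrix (Fin n) (Fin n) ℂ).det
    rw [Submonoid.coe_mul, Matrix.det_mul]

theorem dt_cont {n : ℕ} : Continuous (dt (n := n)) := by
  refine Continuous.subtype_mk ?_ _
  exact continuous_subtype_val.matrix_det

theorem dt_one {n : ℕ} (hn : n = 1) (A : Matrix.unitaryGroup (Fin n) ℂ) :
    ((dt A : Circle) : ℂ) = (A : Matrix (Fin n) (Fin n) ℂ).trace := by
  subst hn
  change (A : Matrix (Fin 1) (Fin 1) ℂ).det = _
  rw [Matrix.det_fin_one, Matrix.trace_fin_one]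

section

variable {K : Type} [Field K] [NumberField K] {I : Type} [Fintype I] [DecidableEq I]
  {H : I → Type} [∀ i, Group (H i)] [∀ i, TopologicalSpace (H i)]
  [∀ i, IsTopologicalGroup (H i)] [∀ i, CompactSpace (H i)] [∀ i, T2Space (H i)]
  [∀ i, MeasurableSpace (H i)] [∀ i, BorelSpace (H i)]
  {μ : ∀ i, Measure (H i)} [∀ i, IsProbabilityMeasure (μ i)] [∀ i, (μ i).IsHaarMeasure]
  {x : HeightOneSpectrum (𝓞 K) → ∀ i, H i}

/-- linked factors -/
def Linked (x : HeightOneSpectrum (𝓞 K) → ∀ i, H i) (i j : I) : Prop :=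
  ∃ (a : Irr (H i)) (b : Irr (H j)) (τ ζ : ℝ), 2 ≤ a.n ∧ 2 ≤ b.n ∧ (ζ = 1 ∨ ζ = -1) ∧
    Tendsto (qt (nm K) fun v => ‖a.c (x v i) - (ζ : ℂ) * conj (b.c (x v j) *
      ((nm K v : ℕ) : ℂ) ^ (-(τ * Complex.I)))‖ ^ 2) (𝓝[>] 0) (𝓝 0)

/-- continuation -/
def ConT {n : I → ℕ} (π : ∀ i, H i →* Matrix.unitaryGroup (Fin (n i)) ℂ)
    (x : HeightOneSpectrum (𝓞 K) → ∀ i, H i) (τ : ℝ) (Λ : ℂ → ℂ) : Prop :=
  MeromorphicAt Λ (1 + τ * Complex.I) ∧
    ∀ᶠ s in 𝓝 ((1 : ℂ) + τ * Complex.I), (1 : ℝ) < s.re → Λ s = LT π x s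

theorem bc_c {i : I} (r : Irr (H i)) : Bc fun v => r.c (x v i) :=
  ⟨r.n, fun v => norm_chi _ _⟩

theorem bc_cpow (τ : ℝ) : Bc fun v : HeightOneSpectrum (𝓞 K) =>
    ((nm K v : ℕ) : ℂ) ^ (-(τ * Complex.I)) :=
  ⟨1, fun v => (norm_cpow_I (nm_pos v) τ).le⟩

theorem PL.sq {i : I} (h : PL x μ {i}) (r : Irr (H i)) (hn : r.n ≠ 0) {U : Ultrafilter ℝ}
    (hU : (U : Filter ℝ) ≤ 𝓝[>] 0) :
    (Pool.Agent.TH553.RS.M (nm K) U fun v => ‖r.c (x v i)‖ ^ 2) = 1 := by
  classical
  have h1 := h.M hU (ψ := fun j g => ‖(Function.update (fun j => triv (H j)) i r j).c g‖ ^ 2)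
    (fun j => (Irr.cc _).norm.pow 2) fun j => dec_sq (μ j) (Irr.cont _)
  simp only [Finset.prod_singleton, Function.update_self] at h1
  rw [h1]
  exact int_sq r.cont r.schur hn

theorem PL.four {i : I} (h : PL x μ {i}) (r : Irr (H i)) {U : Ultrafilter ℝ}
    (hU : (U : Filter ℝ) ≤ 𝓝[>] 0) (hn : r.n ≠ 0) :
    (Pool.Agent.TH553.RS.M (nm K) U fun v => (‖r.c (x v i)‖ ^ 2) ^ 2) =
      ∫ g, ‖r.c g‖ ^ 4 ∂(μ i) := by
  classical
  have h1 := h.M hU
    (ψ := fun j g => (‖(Function.update (fun j => triv (H j)) i r j).c g‖ ^ 2 - 1) ^ 2)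
    (fun j => ((Irr.cc _).norm.pow 2 |>.sub continuous_const).pow 2)
    fun j => dec_dev (μ j) (Irr.cont _)
  simp only [Finset.prod_singleton, Function.update_self] at h1
  have h2 : ∫ g, (‖r.c g‖ ^ 2 - 1) ^ 2 ∂(μ i) = (∫ g, ‖r.c g‖ ^ 4 ∂(μ i)) - 1 :=
    int_dev r.cont r.schur hn
  rw [h2] at h1
  have hb := (bc_c (x := x) r).norm.sq
  have e : (fun v => (‖r.c (x v i)‖ ^ 2 - 1) ^ 2) = fun v =>
      ((‖r.c (x v i)‖ ^ 2) ^ 2 - 2 * ‖r.c (x v i)‖ ^ 2) + 1 := by
    funext v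
    ring
  rw [e, M_add (sysF K) hU (hb.sq.sub (hb.const_mul 2)) (Bd.const 1),
    M_sub (sysF K) hU hb.sq (hb.const_mul 2), M_const_mul (sysF K) hU hb, h.sq r hn hU,
    M_one (sysF K) hU] at h1
  linarith

/-- the case of two factors -/
theorem pair_case {i j : I} (hij : i ≠ j) (hi : PL x μ {i}) (hj : PL x μ {j})
    (hl : ¬ Linked x i j) (a : Irr (H i)) (b : Irr (H j)) (ha : 2 ≤ a.n) (hb : b.n ≠ 0) {τ : ℝ}
    {m : ℤ} (hm : ∀ U : Ultrafilter ℝ, (U : Filter ℝ) ≤ 𝓝[>] 0 →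
      (Pool.Agent.TH553.RS.M (nm K) U fun v => (a.c (x v i) * (b.c (x v j) *
        ((nm K v : ℕ) : ℂ) ^ (-(τ * Complex.I)))).re) = m) : m = 0 := by
  have hne : (𝓝[>] (0 : ℝ)).NeBot := inferInstance
  set U₀ : Ultrafilter ℝ := Ultrafilter.of (𝓝[>] (0 : ℝ)) with hUd
  have hU₀ : (U₀ : Filter ℝ) ≤ 𝓝[>] 0 := Ultrafilter.of_le _
  by_contra hm0
  set t : HeightOneSpectrum (𝓞 K) → ℂ := fun v => a.c (x v i) with ht
  set c : HeightOneSpectrum (𝓞 K) → ℂ := fun v => b.c (x v j) *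
    ((nm K v : ℕ) : ℂ) ^ (-(τ * Complex.I)) with hc
  have htb : Bc t := bc_c a
  have hcb : Bc c := (bc_c b).mul (bc_cpow τ)
  have hcn : ∀ v, ‖c v‖ = ‖b.c (x v j)‖ := fun v => by
    rw [hc]
    simp only
    rw [norm_mul, norm_cpow_I (nm_pos v) τ, mul_one]
  have h2 : ∀ U : Ultrafilter ℝ, (U : Filter ℝ) ≤ 𝓝[>] 0 →
      (Pool.Agent.TH553.RS.M (nm K) U fun v => ‖t v‖ ^ 2) = 1 ∧
      (Pool.Agent.TH553.RS.M (nm K) U fun v => ‖c v‖ ^ 2) = 1 := by
    intro U hU
    refine ⟨hi.sq a (by omega) hU, ?_⟩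
    simp only [hcn]
    exact hj.sq b hb hU
  have h3 : (1 : ℝ) ≤ (m : ℝ) ^ 2 := by
    have : (1 : ℤ) ≤ m ^ 2 := by
      have : 0 < m ^ 2 := by positivity
      omega
    exact_mod_cast this
  have h4 : ∀ U : Ultrafilter ℝ, (U : Filter ℝ) ≤ 𝓝[>] 0 →
      (Pool.Agent.TH553.RS.M (nm K) U fun p => ‖df (m : ℝ) t c p‖ ^ 2) = 0 := fun U hU =>
    edge_eq (sysF K) hU htb hcb (h2 U hU).1.le (h2 U hU).2.le (hm U hU) h3
  have h5 := edge_le (sysF K) hU₀ htb hcb (h2 U₀ hU₀).1.le (h2 U₀ hU₀).2.le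
  rw [hm U₀ hU₀] at h5
  have h6 : |(m : ℝ)| = 1 := by
    rw [← sq_eq_sq₀ (abs_nonneg _) zero_le_one, sq_abs, one_pow]
    linarith
  have hb1 : 2 ≤ b.n := by
    by_contra hlt
    have hb1 : b.n = 1 := by omega
    have h7 := edge_mom (sysF K) hU₀ htb hcb h6 (h4 U₀ hU₀) 2
    have h8 : ∀ g : H j, ‖b.c g‖ = 1 := by
      intro g
      have h9 := dt_one hb1 (b.ρ g)
      unfold Irr.c Pool.Agent.TH553.ST.chi
      rw [← h9]
      exact Circle.norm_coe _
    simp only [hcn, h8] at h7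
    have h10 : (Pool.Agent.TH553.RS.M (nm K) U₀ fun v => (‖t v‖ ^ 2) ^ 2) =
        ∫ g, ‖a.c g‖ ^ 4 ∂(μ i) := hi.four a hU₀ (by omega)
    rw [h10] at h7
    simp only [one_pow] at h7
    rw [M_one (sysF K) hU₀] at h7
    have h11 : 1 < ∫ g, ‖a.c g‖ ^ 4 ∂(μ i) := int_four a.cont a.schur ha
    linarith
  refine hl ⟨a, b, τ, m, ha, hb1, ?_, ?_⟩
  · rcases abs_eq (zero_le_one' ℝ) |>.1 h6 with h | h
    · exact Or.inl h
    · exact Or.inr h
  · have h7 := Pool.Agent.T2H24.SU.tendsto_of_M (sysF K)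
      (φ := fun v => ‖df (m : ℝ) t c v‖ ^ 2) (Bc.df htb hcb _).norm.sq h4
    exact h7

end

section

variable {K : Type} [Field K] [NumberField K] {I : Type} [Fintype I] [DecidableEq I]
  {H : I → Type} [∀ i, Group (H i)] [∀ i, TopologicalSpace (H i)]
  [∀ i, IsTopologicalGroup (H i)] [∀ i, CompactSpace (H i)] [∀ i, T2Space (H i)]
  [∀ i, MeasurableSpace (H i)] [∀ i, BorelSpace (H i)]
  {μ : ∀ i, Measure (H i)} [∀ i, IsProbabilityMeasure (μ i)] [∀ i, (μ i).IsHaarMeasure]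
  {x : HeightOneSpectrum (𝓞 K) → ∀ i, H i}

/-- the bound for the mean, with the twist -/
theorem mean_abs {J : Finset I} (r : ∀ i, Irr (H i)) {U : Ultrafilter ℝ}
    (hU : (U : Filter ℝ) ≤ 𝓝[>] 0) (τ : ℝ) :
    |Pool.Agent.TH553.RS.M (nm K) U fun v => ((∏ i ∈ J, (r i).c (x v i)) *
      ((nm K v : ℕ) : ℂ) ^ (-(τ * Complex.I))).re| ≤
      Pool.Agent.TH553.RS.M (nm K) U fun v => ∏ i ∈ J, ‖(r i).c (x v i)‖ := by
  have hb : Bd fun v => ∏ i ∈ J, ‖(r i).c (x v i)‖ :=
    bd_prod (x := x) (J := J) (ψ := fun i g => ‖(r i).c g‖) fun i => (r i).cc.norm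
  have hn : ∀ v, ‖(∏ i ∈ J, (r i).c (x v i)) * ((nm K v : ℕ) : ℂ) ^ (-(τ * Complex.I))‖ =
      ∏ i ∈ J, ‖(r i).c (x v i)‖ := by
    intro v
    rw [norm_mul, norm_cpow_I (nm_pos v) τ, mul_one, norm_prod]
  have hb2 : Bc fun v => (∏ i ∈ J, (r i).c (x v i)) *
      ((nm K v : ℕ) : ℂ) ^ (-(τ * Complex.I)) := by
    obtain ⟨C, hC⟩ := hb
    exact ⟨C, fun v => by rw [hn]; exact (le_abs_self _).trans (hC v)⟩
  rw [abs_le]
  constructor
  · have h1 := M_mono (sysF K) hU (hb.const_mul (-1)) hb2.re fun v => by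
      have h2 := (abs_le.1 (Complex.abs_re_le_norm ((∏ i ∈ J, (r i).c (x v i)) *
        ((nm K v : ℕ) : ℂ) ^ (-(τ * Complex.I))))).1
      rw [hn] at h2
      linarith
    rw [M_const_mul (sysF K) hU hb] at h1
    linarith
  · exact M_mono (sysF K) hU hb2.re hb fun v => by
      rw [← hn v]
      exact Complex.re_le_norm _

/-- **The induction.** -/
theorem goursat (h1 : ∀ i, PL x μ {i})
    (hab : ∀ χ : (∀ i, H i) →* Circle, Continuous χ → (∃ g, χ g ≠ 1) →
      Tendsto (mn fun v => ((χ (x v) : Circle) : ℂ)) atTop (𝓝 0))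
    (hc : ∀ r : ∀ i, Irr (H i), (∃ i, ∃ g, (r i).ρ g ≠ 1) → ∀ τ : ℝ,
      ∃ Λ, ConT (fun i => (r i).ρ) x τ Λ)
    (hnl : ∀ i j, i ≠ j → ¬ Linked x i j) : PL x μ Finset.univ := by
  have hne : (𝓝[>] (0 : ℝ)).NeBot := inferInstance
  set U₀ : Ultrafilter ℝ := Ultrafilter.of (𝓝[>] (0 : ℝ)) with hUd
  have hU₀ : (U₀ : Filter ℝ) ≤ 𝓝[>] 0 := Ultrafilter.of_le _
  have key : ∀ J : Finset I, PL x μ J := by
    intro J
    induction J using Finset.strongInduction with
    | H J IH =>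
    intro r
    by_cases hA : ∃ i₀ ∈ J, ∀ g, (r i₀).ρ g = 1
    · -- a trivial factor
      obtain ⟨i₀, hi₀, htr⟩ := hA
      have h2 : ∀ g, (r i₀).c g = ((r i₀).n : ℂ) := fun g => chi_triv htr g
      have h3 := (IH (J.erase i₀) (Finset.erase_ssubset hi₀) r).const_mul ((r i₀).n : ℂ)
      have h4 : ∏ i ∈ J, ∫ g, (r i).c g ∂(μ i) =
          ((r i₀).n : ℂ) * ∏ i ∈ J.erase i₀, ∫ g, (r i).c g ∂(μ i) := by
        rw [← Finset.mul_prod_erase J _ hi₀]
        congr 1
        simp only [h2]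
        simp
      rw [h4]
      refine h3.congr fun N => ?_
      rw [← mn_mul]
      congr 1
      funext v
      rw [← Finset.mul_prod_erase J _ hi₀, h2]
    push Not at hA
    have hn0 : ∀ i ∈ J, (r i).n ≠ 0 := by
      intro i hi h0
      obtain ⟨g, hg⟩ := hA i hi
      apply hg
      apply Subtype.ext
      ext a b
      exact Fin.elim0 (h0 ▸ a)
    rcases J.eq_empty_or_nonempty with rfl | hJne
    · simp only [Finset.prod_empty]
      exact mn_const K 1
    obtain ⟨j₀, hj₀⟩ := hJne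
    have hzero : ∏ i ∈ J, ∫ g, (r i).c g ∂(μ i) = 0 :=
      Finset.prod_eq_zero hj₀ (int_chi (r j₀).cont (r j₀).schur (hA j₀ hj₀))
    rw [hzero]
    by_cases hB : ∀ i ∈ J, (r i).n = 1
    · -- a one-dimensional representation
      set χ : (∀ i, H i) →* Circle := ∏ i ∈ J, (dt.comp (r i).ρ).comp (Pi.evalMonoidHom H i)
        with hχ
      have hχe : ∀ g, χ g = ∏ i ∈ J, dt ((r i).ρ (g i)) := by
        intro g
        rw [hχ, MonoidHom.finsetProd_apply]
        rfl
      have hχc : Continuous χ := by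
        have : (χ : (∀ i, H i) → Circle) = fun g => ∏ i ∈ J, dt ((r i).ρ (g i)) := funext hχe
        rw [this]
        exact continuous_finsetProd _ fun i _ => dt_cont.comp
          ((r i).cont.comp (continuous_apply i))
      have hχn : ∃ g, χ g ≠ 1 := by
        obtain ⟨g, hg⟩ := hA j₀ hj₀
        refine ⟨Pi.mulSingle j₀ g, fun h => hg ?_⟩
        rw [hχe, Finset.prod_eq_single j₀] at h
        · rw [Pi.mulSingle_eq_same] at h
          have h2 := dt_one (hB j₀ hj₀) ((r j₀).ρ g)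
          rw [h] at h2
          apply Subtype.ext
          have h3 := hB j₀ hj₀
          have key2 : ∀ (n : ℕ) (A : Matrix.unitaryGroup (Fin n) ℂ), n = 1 →
              ((1 : Circle) : ℂ) = (A : Matrix (Fin n) (Fin n) ℂ).trace →
              (A : Matrix (Fin n) (Fin n) ℂ) = 1 := by
            rintro n A rfl h4
            rw [Matrix.trace_fin_one, Circle.coe_one] at h4
            ext i j
            rw [Subsingleton.elim i 0, Subsingleton.elim j 0, ← h4]
            simp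
          exact key2 _ _ h3 h2
        · intro i _ hi
          rw [Pi.mulSingle_eq_of_ne hi, map_one, map_one]
        · intro h4
          exact absurd hj₀ h4
      refine (hab χ hχc hχn).congr fun N => ?_
      congr 1
      funext v
      rw [hχe]
      rw [show ((∏ i ∈ J, dt ((r i).ρ (x v i)) : Circle) : ℂ) =
        ∏ i ∈ J, ((dt ((r i).ρ (x v i)) : Circle) : ℂ) from map_prod Circle.coeHom _ _]
      exact Finset.prod_congr rfl fun i hi => dt_one (hB i hi) _
    push Not at hB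
    obtain ⟨i₀, hi₀, hi₀n⟩ := hB
    have hdim : 2 ≤ (r i₀).n := by
      have := hn0 i₀ hi₀
      omega
    by_cases hcard : J.card = 1
    · -- one factor
      obtain ⟨i, hi⟩ := Finset.card_eq_one.1 hcard
      subst hi
      have h2 := h1 i r
      rw [hzero] at h2
      exact h2
    -- the L-function
    set r' : ∀ i, Irr (H i) := fun i => if i ∈ J then r i else triv (H i) with hr'
    have hch : ∀ g, ch (fun i => (r' i).ρ) g = ∏ i ∈ J, (r i).c (g i) := by
      intro g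
      unfold ch
      rw [← Finset.prod_subset (Finset.subset_univ J)]
      · refine Finset.prod_congr rfl fun i hi => ?_
        have : r' i = r i := if_pos hi
        change (r' i).c (g i) = _
        rw [this]
      · intro i _ hi
        have : r' i = triv (H i) := if_neg hi
        change (r' i).c (g i) = 1
        rw [this, triv_c]
    have hnt : ∃ i, ∃ g, (r' i).ρ g ≠ 1 := by
      obtain ⟨g, hg⟩ := hA i₀ hi₀
      have h2 : r' i₀ = r i₀ := if_pos hi₀
      refine ⟨i₀, ?_⟩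
      rw [h2]
      exact ⟨g, hg⟩
    have hgoal : Tendsto (mn fun v => ch (fun i => (r' i).ρ) (x v)) atTop (𝓝 0) := by
      refine avg_T fun τ => ?_
      obtain ⟨Λ, hΛ1, hΛ2⟩ := hc r' hnt τ
      obtain ⟨m, hm1, hm2⟩ := order_T hΛ1 hΛ2
      refine ⟨Λ, hΛ1, hΛ2, ?_⟩
      rw [hm1]
      -- the mean values
      have hM : ∀ U : Ultrafilter ℝ, (U : Filter ℝ) ≤ 𝓝[>] 0 →
          (Pool.Agent.TH553.RS.M (nm K) U fun v => ((∏ i ∈ J, (r i).c (x v i)) *
            ((nm K v : ℕ) : ℂ) ^ (-(τ * Complex.I))).re) = ((-m : ℤ) : ℝ) := by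
        intro U hU
        have h2 := (size_T (fun i => (r' i).ρ) x τ).2.add hm2
        simp only [sub_add_cancel, zero_add, hch] at h2
        push_cast
        exact M_of_tendsto hU h2
      suffices h : -m = 0 by
        have : m = 0 := by omega
        rw [this]
      by_cases hcard2 : J.card = 2
      · -- two factors
        obtain ⟨i₁, hi₁, hne1⟩ : ∃ i₁ ∈ J, i₁ ≠ i₀ := by
          by_contra hcon
          push Not at hcon
          have h2 : J ⊆ {i₀} := fun i hi => Finset.mem_singleton.2 (hcon i hi)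
          have h3 := Finset.card_le_card h2
          rw [Finset.card_singleton] at h3
          omega
        have hJ : J = {i₀, i₁} := by
          symm
          apply Finset.eq_of_subset_of_card_le
          · intro i hi
            rcases Finset.mem_insert.1 hi with rfl | hi
            · exact hi₀
            · rw [Finset.mem_singleton.1 hi]
              exact hi₁
          · rw [hcard2, Finset.card_pair hne1.symm]
        refine pair_case (μ := μ) hne1.symm (h1 i₀) (h1 i₁) (hnl i₀ i₁ hne1.symm) (r i₀) (r i₁)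
          hdim (hn0 i₁ hi₁) (τ := τ) fun U hU => ?_
        rw [← hM U hU, hJ]
        congr 1
        funext v
        rw [Finset.prod_pair hne1.symm, mul_assoc]
      · -- three and more factors
        have hcard3 : 3 ≤ J.card := by
          have := Finset.card_pos.2 ⟨i₀, hi₀⟩
          omega
        obtain ⟨i₁, hi₁, hne1⟩ : ∃ i₁ ∈ J, i₁ ≠ i₀ := by
          by_contra hcon
          push Not at hcon
          have h2 : J ⊆ {i₀} := fun i hi => Finset.mem_singleton.2 (hcon i hi)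
          have h3 := Finset.card_le_card h2
          rw [Finset.card_singleton] at h3
          omega
        have h2 := mean_bd hi₀ hi₁ hne1.symm hcard3 IH r hn0 hU₀
        have h3 := mean_abs (x := x) (J := J) r hU₀ τ
        rw [hM U₀ hU₀] at h3
        have h4 : 1 < ∫ g, ‖(r i₀).c g‖ ^ 4 ∂(μ i₀) := int_four (r i₀).cont (r i₀).schur hdim
        have h5 : 0 < ((∫ g, ‖(r i₀).c g‖ ^ 4 ∂(μ i₀)) - 1) /
            (2 * (((r i₀).n : ℝ) + 1) ^ 2) := by
          apply div_pos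
          · linarith
          · positivity
        have h6 : |((-m : ℤ) : ℝ)| < 1 := by linarith
        exact Int.abs_lt_one_iff.1 (by exact_mod_cast h6)
    refine hgoal.congr fun N => ?_
    congr 1
    funext v
    exact hch (x v)
  exact key Finset.univ

end

end Pool.Agent.T2H24.GR
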