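import Pool.Agent.T2H24.GR.Ineq

set_option autoImplicit false
set_option linter.unusedSectionVars false
set_option linter.unusedVariables false

/-!
# The theorem of Peter and Weyl for class functions on a finite product
-/

namespace Pool.Agent.T2H24.GR

open Filter Topology ComplexConjugate NumberField IsDedekindDomain MeasureTheory
  Pool.Agent.W540.BE Pool.Agent.TH553.RS Pool.Agent.TH553.ST Pool.Agent.H341R2
open scoped Matrix

section

variable {I : Type} [Fintype I] [DecidableEq I] {H : I → Type} [∀ i, Group (H i)]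
  [∀ i, TopologicalSpace (H i)]

/-- combinations of products of matrix coefficients -/
def CoefN (f : (∀ i, H i) → ℂ) : Prop := ∃ (J : Type) (_ : Fintype J) (a : J → ℂ)
  (φ : J → ∀ i, H i → ℂ), (∀ j i, Coef (φ j i)) ∧ ∀ g, f g = ∑ j, a j * ∏ i, φ j i (g i)

theorem CoefN.add {f f' : (∀ i, H i) → ℂ} (h : CoefN f) (h' : CoefN f') :
    CoefN fun p => f p + f' p := by
  obtain ⟨J, _, a, φ, h1, h3⟩ := h
  obtain ⟨J', _, a', φ', h1', h3'⟩ := h'
  refine ⟨J ⊕ J', inferInstance, Sum.elim a a', Sum.elim φ φ', ?_, fun p => ?_⟩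
  · rintro (j | j)
    · exact h1 j
    · exact h1' j
  · change f p + f' p = _
    rw [Fintype.sum_sum_type, h3, h3']
    rfl

theorem CoefN.mul {f f' : (∀ i, H i) → ℂ} (h : CoefN f) (h' : CoefN f') :
    CoefN fun p => f p * f' p := by
  obtain ⟨J, _, a, φ, h1, h3⟩ := h
  obtain ⟨J', _, a', φ', h1', h3'⟩ := h'
  refine ⟨J × J', inferInstance, fun j => a j.1 * a' j.2, fun j i g => φ j.1 i g * φ' j.2 i g,
    fun j i => (h1 j.1 i).mul (h1' j.2 i), fun p => ?_⟩
  change f p * f' p = _
  rw [h3, h3', Finset.sum_mul_sum, Fintype.sum_prod_type]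
  refine Finset.sum_congr rfl fun j _ => Finset.sum_congr rfl fun j' _ => ?_
  simp only
  rw [Finset.prod_mul_distrib]
  ring

theorem CoefN.const (c : ℂ) : CoefN fun _ : ∀ i, H i => c :=
  ⟨Unit, inferInstance, fun _ => c, fun _ _ _ => 1, fun _ _ => Coef.const 1, fun p => by simp⟩

theorem CoefN.conj {f : (∀ i, H i) → ℂ} (h : CoefN f) : CoefN fun p => conj (f p) := by
  obtain ⟨J, _, a, φ, h1, h3⟩ := h
  refine ⟨J, inferInstance, fun j => (starRingEnd ℂ) (a j),
    fun j i g => (starRingEnd ℂ) (φ j i g), fun j i => (h1 j i).conj, fun p => ?_⟩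
  change (starRingEnd ℂ) (f p) = _
  rw [h3, map_sum]
  refine Finset.sum_congr rfl fun j _ => ?_
  rw [map_mul, map_prod]

/-- the algebra -/
noncomputable def coefAlgN (H : I → Type) [∀ i, Group (H i)] [∀ i, TopologicalSpace (H i)] :
    StarSubalgebra ℂ C(∀ i, H i, ℂ) where
  carrier := {f | CoefN f}
  mul_mem' := fun {f f'} (h : CoefN f) (h' : CoefN f') => show CoefN _ from h.mul h'
  one_mem' := show CoefN _ from CoefN.const 1
  add_mem' := fun {f f'} (h : CoefN f) (h' : CoefN f') => show CoefN _ from h.add h'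
  zero_mem' := show CoefN _ from CoefN.const 0
  algebraMap_mem' := fun c => show CoefN _ from CoefN.const c
  star_mem' := fun {f} (h : CoefN f) => show CoefN _ from h.conj

theorem coefN_cont {f : (∀ i, H i) → ℂ} (h : CoefN f) : Continuous f := by
  obtain ⟨J, _, a, φ, h1, h3⟩ := h
  have : f = fun p => ∑ j, a j * ∏ i, φ j i (p i) := funext h3
  rw [this]
  exact continuous_finsetSum _ fun j _ => continuous_const.mul
    (continuous_finsetProd _ fun i _ => (coef_cont (h1 j i)).comp (continuous_apply i))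

end

section

variable {I : Type} [Fintype I] [DecidableEq I] {H : I → Type} [∀ i, Group (H i)]
  [∀ i, TopologicalSpace (H i)] [∀ i, IsTopologicalGroup (H i)] [∀ i, CompactSpace (H i)]
  [∀ i, T2Space (H i)]

theorem coefN_dense {f : (∀ i, H i) → ℂ} (hf : Continuous f) {ε : ℝ} (hε : 0 < ε) :
    ∃ φ : (∀ i, H i) → ℂ, CoefN φ ∧ ∀ p, ‖f p - φ p‖ ≤ ε := by
  have h1 : (coefAlgN H).topologicalClosure = ⊤ := by
    refine ContinuousMap.starSubalgebra_topologicalClosure_eq_top_of_separatesPoints _ ?_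
    intro g h hne
    obtain ⟨i₀, hi₀⟩ := Function.ne_iff.1 hne
    obtain ⟨φ, h2, h3⟩ := coef_sep hi₀
    have h4 : CoefN fun p : ∀ i, H i => φ (p i₀) := by
      refine ⟨Unit, inferInstance, fun _ => 1, fun _ => Function.update (fun _ _ => 1) i₀ φ,
        fun _ i => ?_, fun p => ?_⟩
      · change Coef (Function.update (fun _ _ => 1) i₀ φ i)
        by_cases hi : i = i₀
        · subst hi
          rw [Function.update_self]
          exact h2
        · rw [Function.update_of_ne hi]
          exact Coef.const 1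
      · simp only [Finset.univ_unique, Finset.sum_singleton, one_mul]
        rw [Finset.prod_eq_single i₀]
        · rw [Function.update_self]
        · intro i _ hi
          rw [Function.update_of_ne hi]
        · intro h
          exact absurd (Finset.mem_univ _) h
    exact ⟨_, ⟨⟨_, coefN_cont h4⟩, h4, rfl⟩, h3⟩
  have h2 : (⟨f, hf⟩ : C(∀ i, H i, ℂ)) ∈ (coefAlgN H).topologicalClosure := by
    rw [h1]
    exact StarSubalgebra.mem_top
  have h3 : (⟨f, hf⟩ : C(∀ i, H i, ℂ)) ∈ closure ((coefAlgN H :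
      StarSubalgebra ℂ C(∀ i, H i, ℂ)) : Set C(∀ i, H i, ℂ)) := h2
  obtain ⟨φ, h4, h5⟩ := Metric.mem_closure_iff.1 h3 ε hε
  refine ⟨φ, h4, fun g => ?_⟩
  rw [dist_eq_norm] at h5
  exact (ContinuousMap.norm_coe_le_norm ((⟨f, hf⟩ : C(∀ i, H i, ℂ)) - φ) g).trans h5.le

variable [∀ i, SecondCountableTopology (H i)] [∀ i, MeasurableSpace (H i)] [∀ i, BorelSpace (H i)]
  {μ : ∀ i, Measure (H i)} [∀ i, IsProbabilityMeasure (μ i)] [∀ i, (μ i).IsHaarMeasure]

/-- **Products of irreducible characters span a dense space of class functions.** -/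
theorem classN (μ : ∀ i, Measure (H i)) [∀ i, IsProbabilityMeasure (μ i)]
    [∀ i, (μ i).IsHaarMeasure] {f : (∀ i, H i) → ℂ} (hf : Continuous f)
    (hcl : ∀ g h, f (h * g * h⁻¹) = f g)
    {ε : ℝ} (hε : 0 < ε) : ∃ (J : Type) (_ : Fintype J) (r : J → ∀ i, Irr (H i)) (a : J → ℂ),
      ∀ g, ‖f g - ∑ j, a j * ∏ i, (r j i).c (g i)‖ ≤ ε := by
  classical
  obtain ⟨φ₀, h1, h2⟩ := coefN_dense hf hε
  have hc0 := coefN_cont h1
  obtain ⟨J, _, a, φ, h3, h5⟩ := h1
  choose J1 i1 r1 a1 q1 using fun j i => dec_irr (dec_cav (μ := μ i) (h3 j i))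
  refine ⟨Σ j, ∀ i, J1 j i, inferInstance, fun k i => r1 k.1 i (k.2 i),
    fun k => a k.1 * ∏ i, a1 k.1 i (k.2 i), fun g => ?_⟩
  have e1 : ∑ k : (Σ j, ∀ i, J1 j i), (a k.1 * ∏ i, a1 k.1 i (k.2 i)) *
      ∏ i, (r1 k.1 i (k.2 i)).c (g i) = ∑ j, a j * ∏ i, cav (μ i) (φ j i) (g i) := by
    rw [Fintype.sum_sigma]
    refine Finset.sum_congr rfl fun j _ => ?_
    simp only [q1]
    rw [Finset.prod_univ_sum, Fintype.piFinset_univ, Finset.mul_sum]
    refine Finset.sum_congr rfl fun κ _ => ?_
    rw [Finset.prod_mul_distrib]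
    ring
  rw [e1]
  have hpi : IsProbabilityMeasure (Measure.pi μ) := inferInstance
  have hconj : ∀ F : (∀ i, H i) → ℂ, Continuous F → Continuous fun h => F (h⁻¹ * g * h) :=
    fun F hF => hF.comp ((continuous_inv.mul continuous_const).mul continuous_id)
  have e2 : ∫ h, φ₀ (h⁻¹ * g * h) ∂(Measure.pi μ) = ∑ j, a j * ∏ i, cav (μ i) (φ j i) (g i) := by
    simp only [h5]
    rw [integral_finsetSum]
    · refine Finset.sum_congr rfl fun j _ => ?_
      rw [integral_const_mul]
      congr 1
      exact integral_fintype_prod_eq_prod (fun i (h : H i) => φ j i (h⁻¹ * g i * h))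
    · intro j _
      refine Integrable.const_mul ?_ _
      refine (Continuous.integrable_of_hasCompactSupport ?_ (HasCompactSupport.of_compactSpace _))
      exact continuous_finsetProd _ fun i _ => (coef_cont (h3 j i)).comp
        (((continuous_inv.mul continuous_const).mul continuous_id).comp (continuous_apply i))
  have e3 : f g = ∫ h, f (h⁻¹ * g * h) ∂(Measure.pi μ) := by
    have h6 : ∀ h, f (h⁻¹ * g * h) = f g := by
      intro h
      have := hcl g h⁻¹
      rwa [inv_inv] at this
    simp only [h6]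
    simp
  rw [← e2, e3]
  have hif : Integrable (fun h => f (h⁻¹ * g * h)) (Measure.pi μ) :=
    (hconj f hf).integrable_of_hasCompactSupport (HasCompactSupport.of_compactSpace _)
  have hiφ : Integrable (fun h => φ₀ (h⁻¹ * g * h)) (Measure.pi μ) :=
    (hconj φ₀ hc0).integrable_of_hasCompactSupport (HasCompactSupport.of_compactSpace _)
  rw [← integral_sub hif hiφ]
  refine (norm_integral_le_integral_norm _).trans ?_
  have h9 : ∫ h, ‖f (h⁻¹ * g * h) - φ₀ (h⁻¹ * g * h)‖ ∂(Measure.pi μ) ≤
      ∫ _, ε ∂(Measure.pi μ) :=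
    integral_mono (hif.sub hiφ).norm (integrable_const _) fun k => h2 _
  simpa using h9

end

section

variable {K : Type} [Field K] [NumberField K] {I : Type} [Fintype I] [DecidableEq I]
  {H : I → Type} [∀ i, Group (H i)] [∀ i, TopologicalSpace (H i)]
  [∀ i, IsTopologicalGroup (H i)] [∀ i, CompactSpace (H i)] [∀ i, T2Space (H i)]
  [∀ i, SecondCountableTopology (H i)] [∀ i, MeasurableSpace (H i)] [∀ i, BorelSpace (H i)]
  {μ : ∀ i, Measure (H i)} [∀ i, IsProbabilityMeasure (μ i)] [∀ i, (μ i).IsHaarMeasure]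
  {x : HeightOneSpectrum (𝓞 K) → ∀ i, H i}

theorem int_prod (J : Finset I) (φ : ∀ i, H i → ℂ) :
    ∫ g, ∏ i ∈ J, φ i (g i) ∂(Measure.pi μ) = ∏ i ∈ J, ∫ g, φ i g ∂(μ i) := by
  have h1 : ∀ g : ∀ i, H i, ∏ i ∈ J, φ i (g i) =
      ∏ i, (fun i (h : H i) => if i ∈ J then φ i h else 1) i (g i) := by
    intro g
    rw [← Finset.prod_subset (Finset.subset_univ J)]
    · exact Finset.prod_congr rfl fun i hi => (if_pos hi).symm
    · intro i _ hi
      exact if_neg hi
  simp only [h1]
  rw [integral_fintype_prod_eq_prod (fun i (h : H i) => if i ∈ J then φ i h else 1),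
    ← Finset.prod_subset (Finset.subset_univ J)]
  · refine Finset.prod_congr rfl fun i hi => ?_
    simp only [if_pos hi]
  · intro i _ hi
    simp only [if_neg hi]
    simp

/-- equidistribution of the coordinates in `J` -/
def EqJ (x : HeightOneSpectrum (𝓞 K) → ∀ i, H i) (μ : ∀ i, Measure (H i)) (J : Finset I) : Prop :=
  ∀ f : (∀ i, H i) → ℂ, Continuous f → (∀ g h, f (h * g * h⁻¹) = f g) → DependsOn f (J : Set I) →
    Tendsto (mn fun v => f (x v)) atTop (𝓝 (∫ g, f g ∂(Measure.pi μ)))

theorem EqJ.pl {J : Finset I} (h : EqJ x μ J) : PL x μ J := by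
  intro r
  have h1 := h (fun g => ∏ i ∈ J, (r i).c (g i))
    (continuous_finsetProd _ fun i _ => (r i).cc.comp (continuous_apply i))
    (fun g k => Finset.prod_congr rfl fun i _ => chi_cls _ _ _)
    (fun g g' hg => Finset.prod_congr rfl fun i hi => by rw [hg i hi])
  rw [int_prod] at h1
  exact h1

/-- **Weyl's criterion on the product.** -/
theorem PL.eq (h : PL x μ Finset.univ) : EqJ x μ Finset.univ := by
  intro f hf hcl _
  refine mn_unif fun ε hε => ?_
  obtain ⟨J, _, r, a, h1⟩ := classN μ hf hcl hε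
  have hFc : Continuous fun g : ∀ i, H i => ∑ j, a j * ∏ i, (r j i).c (g i) :=
    continuous_finsetSum _ fun j _ => continuous_const.mul
      (continuous_finsetProd _ fun i _ => (r j i).cc.comp (continuous_apply i))
  have hint : ∀ F : (∀ i, H i) → ℂ, Continuous F → Integrable F (Measure.pi μ) := fun F hF =>
    hF.integrable_of_hasCompactSupport (HasCompactSupport.of_compactSpace _)
  refine ⟨fun v => ∑ j, a j * ∏ i, (r j i).c (x v i),
    ∫ g, ∑ j, a j * ∏ i, (r j i).c (g i) ∂(Measure.pi μ), fun v => h1 _, ?_, ?_⟩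
  · rw [← integral_sub (hint _ hFc) (hint _ hf)]
    refine (norm_integral_le_integral_norm _).trans ?_
    have h5 : ∫ g, ‖(∑ j, a j * ∏ i, (r j i).c (g i)) - f g‖ ∂(Measure.pi μ) ≤
        ∫ _, ε ∂(Measure.pi μ) := by
      refine integral_mono ((hint _ hFc).sub (hint _ hf)).norm (integrable_const _) fun g => ?_
      simp only
      rw [norm_sub_rev]
      exact h1 g
    simpa using h5
  · have h5 : ∫ g, ∑ j, a j * ∏ i, (r j i).c (g i) ∂(Measure.pi μ) =
        ∑ j, a j * ∏ i, ∫ g, (r j i).c g ∂(μ i) := by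
      have h7 : ∀ j, Integrable (fun g : ∀ i, H i => a j * ∏ i, (r j i).c (g i))
          (Measure.pi μ) := fun j => (hint (fun g => ∏ i, (r j i).c (g i))
        (continuous_finsetProd _ fun i _ => (r j i).cc.comp (continuous_apply i))).const_mul _
      rw [integral_finsetSum _ fun j _ => h7 j]
      refine Finset.sum_congr rfl fun j _ => ?_
      rw [integral_const_mul]
      congr 1
      exact integral_fintype_prod_eq_prod fun i (g : H i) => (r j i).c g
    rw [h5]
    have h6 : (mn fun v => ∑ j, a j * ∏ i, (r j i).c (x v i)) =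
        fun N => ∑ j, a j * mn (fun v => ∏ i, (r j i).c (x v i)) N := by
      funext N
      rw [mn_sum]
      exact Finset.sum_congr rfl fun j _ => mn_mul _ _ _
    rw [h6]
    exact tendsto_finsetSum _ fun j _ => (h (r j)).const_mul _

end

end Pool.Agent.T2H24.GR
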