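import Pool.Agent.T2H24.GR.Goursat

set_option autoImplicit false
set_option linter.unusedSectionVars false
set_option linter.unusedVariables false

/-!
# The conclusions
-/

namespace Pool.Agent.T2H24.GR

open Filter Topology ComplexConjugate NumberField IsDedekindDomain MeasureTheory
  Pool.Agent.W540.BE Pool.Agent.TH553.RS Pool.Agent.TH553.ST Pool.Agent.H341R2
open scoped Matrix

section

variable {K : Type} [Field K] [NumberField K] {I : Type} [Fintype I] [DecidableEq I]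
  {H : I → Type} [∀ i, Group (H i)] [∀ i, TopologicalSpace (H i)]
  [∀ i, IsTopologicalGroup (H i)] [∀ i, CompactSpace (H i)] [∀ i, T2Space (H i)]
  [∀ i, MeasurableSpace (H i)] [∀ i, BorelSpace (H i)]
  {μ : ∀ i, Measure (H i)} [∀ i, IsProbabilityMeasure (μ i)] [∀ i, (μ i).IsHaarMeasure]
  {x : HeightOneSpectrum (𝓞 K) → ∀ i, H i}

/-- **The unconditional bound.** -/
theorem size_bd (hI : 3 ≤ Fintype.card I) (h : ∀ J : Finset I, J ≠ Finset.univ → PL x μ J)
    (r : ∀ i, Irr (H i)) (hn : ∀ i, (r i).n ≠ 0) (i₀ : I) (τ : ℝ) {η : ℝ} (hη : 0 < η) :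
    ∀ᶠ ε in 𝓝[>] (0 : ℝ), |szT (fun i => (r i).ρ) x τ ε| ≤
      1 - ((∫ g, ‖(r i₀).c g‖ ^ 4 ∂(μ i₀)) - 1) / (2 * (((r i₀).n : ℝ) + 1) ^ 2) + η := by
  refine eventually_of_ultra fun U hU => ?_
  obtain ⟨i₁, hi₁⟩ : ∃ i₁ : I, i₁ ≠ i₀ := by
    have : Nontrivial I := Fintype.one_lt_card_iff_nontrivial.1 (by omega)
    exact exists_ne i₀
  have h2 := mean_bd (μ := μ) (J := Finset.univ) (Finset.mem_univ i₀) (Finset.mem_univ i₁) hi₁.symm
    (by rwa [Finset.card_univ]) (fun J' hJ' => h J' hJ'.ne) r (fun i _ => hn i) hU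
  have h3 := mean_abs (x := x) (J := Finset.univ) r hU τ
  set q := Pool.Agent.TH553.RS.M (nm K) U fun v => ((∏ i, (r i).c (x v i)) *
      ((nm K v : ℕ) : ℂ) ^ (-(τ * Complex.I))).re with hq
  have hb : Bc fun v => (∏ i, (r i).c (x v i)) * ((nm K v : ℕ) : ℂ) ^ (-(τ * Complex.I)) := by
    refine Bc.mul ⟨∏ i, ((r i).n : ℝ), fun v => ?_⟩ (bc_cpow τ)
    exact norm_ch (fun i => (r i).ρ) (x v)
  have h4 : Tendsto (szT (fun i => (r i).ρ) x τ) U (𝓝 q) := by
    have h5 := M_lim (sysF K) hU hb.re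
    have h6 := h5.sub ((size_T (fun i => (r i).ρ) x τ).2.mono_left hU)
    rw [sub_zero] at h6
    refine h6.congr fun ε => ?_
    simp only [ch]
    have e : (fun v => ((∏ i, Pool.Agent.TH553.ST.chi (r i).ρ (x v i)) *
        ((nm K v : ℕ) : ℂ) ^ (-(τ * Complex.I))).re) = fun v => ((∏ i, (r i).c (x v i)) *
        ((nm K v : ℕ) : ℂ) ^ (-(τ * Complex.I))).re := rfl
    rw [e]
    ring
  have h7 := h4.abs.eventually_lt_const (u := 1 - ((∫ g, ‖(r i₀).c g‖ ^ 4 ∂(μ i₀)) - 1) /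
    (2 * (((r i₀).n : ℝ) + 1) ^ 2) + η) (by linarith)
  exact h7.mono fun ε hε => hε.le

/-- pairs which are equidistributed are not linked -/
theorem not_linked {i j : I} (hij : i ≠ j) (h : PL x μ {i, j}) (hi : PL x μ {i})
    (hj : PL x μ {j}) : ¬ Linked x i j := by
  rintro ⟨a, b, τ, ζ, ha, hb, hζ, hT⟩
  have hne : (𝓝[>] (0 : ℝ)).NeBot := inferInstance
  set U : Ultrafilter ℝ := Ultrafilter.of (𝓝[>] (0 : ℝ)) with hUd
  have hU : (U : Filter ℝ) ≤ 𝓝[>] 0 := Ultrafilter.of_le _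
  set t : HeightOneSpectrum (𝓞 K) → ℂ := fun v => a.c (x v i) with ht
  set c : HeightOneSpectrum (𝓞 K) → ℂ := fun v => b.c (x v j) *
    ((nm K v : ℕ) : ℂ) ^ (-(τ * Complex.I)) with hc
  have htb : Bc t := bc_c a
  have hcb : Bc c := (bc_c b).mul (bc_cpow τ)
  have hcn : ∀ v, ‖c v‖ = ‖b.c (x v j)‖ := fun v => by
    rw [hc]
    simp only
    rw [norm_mul, norm_cpow_I (nm_pos v) τ, mul_one]
  have h1 : (Pool.Agent.TH553.RS.M (nm K) U fun v => ‖t v‖ ^ 2) = 1 := hi.sq a (by omega) hU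
  have h2 : (Pool.Agent.TH553.RS.M (nm K) U fun v => ‖c v‖ ^ 2) = 1 := by
    simp only [hcn]
    exact hj.sq b (by omega) hU
  have hnt : ∃ g, a.ρ g ≠ 1 := by
    by_contra hcon
    push Not at hcon
    obtain ⟨e, he⟩ := a.schur (Matrix.single ⟨0, by omega⟩ ⟨0, by omega⟩ 1) fun g => by
      rw [hcon g]
      simp
    have h3 := congrFun (congrFun he ⟨0, by omega⟩) ⟨0, by omega⟩
    have h4 := congrFun (congrFun he ⟨1, by omega⟩) ⟨1, by omega⟩
    simp at h3 h4
    rw [← h3] at h4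
    norm_num at h4
  have h3 : (Pool.Agent.TH553.RS.M (nm K) U fun v => (t v * c v).re) = 0 := by
    have h4 := h (Function.update (Function.update (fun k => triv (H k)) i a) j b)
    rw [Finset.prod_pair hij, Function.update_self, Function.update_of_ne hij,
      Function.update_self] at h4
    have h5 : ∫ g, a.c g ∂(μ i) = 0 := int_chi a.cont a.schur hnt
    rw [h5, zero_mul] at h4
    have h6 : (mn fun v => ∏ k ∈ ({i, j} : Finset I),
        ((Function.update (Function.update (fun k => triv (H k)) i a) j b) k).c (x v k)) =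
        mn fun v => a.c (x v i) * b.c (x v j) := by
      congr 1
      funext v
      rw [Finset.prod_pair hij, Function.update_self, Function.update_of_ne hij,
        Function.update_self]
    rw [h6] at h4
    have h7 := M_height hU (g := fun v => a.c (x v i) * b.c (x v j)) ((bc_c a).mul (bc_c b)) h4 τ
    rw [← h7]
    congr 1
    funext v
    simp only [ht, hc]
    rw [mul_assoc]
  have h4 : (Pool.Agent.TH553.RS.M (nm K) U fun p => ‖df ζ t c p‖ ^ 2) = 0 := M_of_tendsto hU hT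
  rw [M_df (sysF K) hU htb hcb ζ, h1, h2, h3] at h4
  have := sq_nonneg ζ
  nlinarith

end

end Pool.Agent.T2H24.GR
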