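import Pool.Agent.T2H24.GR.Prod

set_option autoImplicit false
set_option linter.unusedSectionVars false
set_option linter.unusedVariables false

/-!
# The inequality for three and more factors
-/

namespace Pool.Agent.T2H24.GR

open Filter Topology ComplexConjugate NumberField IsDedekindDomain MeasureTheory
  Pool.Agent.W540.BE Pool.Agent.TH553.RS Pool.Agent.TH553.ST Pool.Agent.H341R2
open scoped Matrix

section

variable {P : Type*} {N : P → ℕ}

/-- the abstract inequality -/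
theorem abs_ineq (hN : Sys N) {U : Ultrafilter ℝ} (hU : (U : Filter ℝ) ≤ 𝓝[>] 0) {a b c : P → ℝ}
    (ha : Bd a) (hb : Bd b) (hc : Bd c) {α : ℝ} (ha0 : ∀ p, 0 ≤ a p) (haα : ∀ p, a p ≤ α)
    (h1 : (M N U fun p => a p ^ 2 * b p ^ 2) = 1) (h2 : (M N U fun p => c p ^ 2) = 1)
    (h3 : (M N U fun p => a p ^ 2 * c p ^ 2) = 1) (h4 : (M N U fun p => b p ^ 2) = 1)
    {δ : ℝ} (h5 : (M N U fun p => (a p ^ 2 - 1) ^ 2 * b p ^ 2) = δ) :
    (M N U fun p => a p * b p * c p) ≤ 1 - δ / (2 * (α + 1) ^ 2) := by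
  set q := M N U fun p => a p * b p * c p with hq
  have hα : 0 ≤ α := by
    by_contra hneg
    push Not at hneg
    have h0 : IsEmpty P := ⟨fun p => by linarith [ha0 p, haα p]⟩
    have h6 := M_one hN hU
    have h7 : (fun _ : P => (1 : ℝ)) = fun _ => 0 := funext fun p => (h0.false p).elim
    rw [h7, M_const hN hU] at h6
    norm_num at h6
  have hu : (M N U fun p => (a p * b p - c p) ^ 2) = 2 - 2 * q := by
    have e : (fun p => (a p * b p - c p) ^ 2) = fun p =>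
        (a p ^ 2 * b p ^ 2 + c p ^ 2) - 2 * (a p * b p * c p) := by
      funext p
      ring
    rw [e, M_sub hN hU ((ha.sq.mul hb.sq).add hc.sq) (((ha.mul hb).mul hc).const_mul 2),
      M_add hN hU (ha.sq.mul hb.sq) hc.sq, M_const_mul hN hU ((ha.mul hb).mul hc), h1, h2, ← hq]
    ring
  have hw : (M N U fun p => (a p * c p - b p) ^ 2) = 2 - 2 * q := by
    have e : (fun p => (a p * c p - b p) ^ 2) = fun p =>
        (a p ^ 2 * c p ^ 2 + b p ^ 2) - 2 * (a p * b p * c p) := by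
      funext p
      ring
    rw [e, M_sub hN hU ((ha.sq.mul hc.sq).add hb.sq) (((ha.mul hb).mul hc).const_mul 2),
      M_add hN hU (ha.sq.mul hc.sq) hb.sq, M_const_mul hN hU ((ha.mul hb).mul hc), h3, h4, ← hq]
    ring
  have hbu : Bd fun p => (a p * b p - c p) ^ 2 := ((ha.mul hb).sub hc).sq
  have hbw : Bd fun p => (a p * c p - b p) ^ 2 := ((ha.mul hc).sub hb).sq
  have h6 : (M N U fun p => (a p ^ 2 - 1) ^ 2 * b p ^ 2) ≤
      M N U fun p => ((α + 1) * α) * (a p * b p - c p) ^ 2 + (α + 1) * (a p * c p - b p) ^ 2 := by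
    refine M_mono hN hU ((ha.sq.sub (Bd.const 1)).sq.mul hb.sq)
      ((hbu.const_mul _).add (hbw.const_mul _)) fun p => ?_
    have e : (a p ^ 2 - 1) ^ 2 * b p ^ 2 = (a p * (a p * b p - c p) + (a p * c p - b p)) ^ 2 := by
      ring
    rw [e]
    set u := a p * b p - c p with hu
    set w := a p * c p - b p with hw
    have h7 := ha0 p
    have h8 := haα p
    have h9 : (a p * u + w) ^ 2 ≤ (a p + 1) * (a p * u ^ 2 + w ^ 2) := by
      nlinarith [mul_nonneg h7 (sq_nonneg (u - w))]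
    have h10 : (a p + 1) * (a p * u ^ 2 + w ^ 2) ≤ (α + 1) * (α * u ^ 2 + w ^ 2) := by
      have h11 : a p * u ^ 2 ≤ α * u ^ 2 := mul_le_mul_of_nonneg_right h8 (sq_nonneg u)
      exact mul_le_mul (by linarith) (by linarith) (by positivity) (by linarith)
    calc _ ≤ _ := h9
      _ ≤ _ := h10
      _ = _ := by ring
  rw [h5, M_add hN hU (hbu.const_mul _) (hbw.const_mul _), M_const_mul hN hU hbu,
    M_const_mul hN hU hbw, hu, hw] at h6
  have h7 : δ ≤ 2 * (α + 1) ^ 2 * (1 - q) := by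
    calc δ ≤ _ := h6
      _ = _ := by ring
  have h8 : (0 : ℝ) < 2 * (α + 1) ^ 2 := by positivity
  have h9 : δ / (2 * (α + 1) ^ 2) ≤ 1 - q := by
    rw [div_le_iff₀ h8]
    linarith
  linarith

end

section

variable {K : Type} [Field K] [NumberField K] {I : Type} [Fintype I] [DecidableEq I]
  {H : I → Type} [∀ i, Group (H i)] [∀ i, TopologicalSpace (H i)]
  [∀ i, IsTopologicalGroup (H i)] [∀ i, CompactSpace (H i)]
  [∀ i, MeasurableSpace (H i)] [∀ i, BorelSpace (H i)] {μ : ∀ i, Measure (H i)}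
  [∀ i, IsProbabilityMeasure (μ i)] [∀ i, (μ i).IsHaarMeasure]
  {x : HeightOneSpectrum (𝓞 K) → ∀ i, H i}

theorem int_dev {G : Type} [Group G] [TopologicalSpace G] [IsTopologicalGroup G] [CompactSpace G]
    [MeasurableSpace G] [BorelSpace G] {μ : Measure G} [IsProbabilityMeasure μ] [μ.IsHaarMeasure]
    {n : ℕ} {π : G →* Matrix.unitaryGroup (Fin n) ℂ} (hc : Continuous π) (hs : Schur π)
    (hn : n ≠ 0) :
    ∫ g, (‖chi π g‖ ^ 2 - 1) ^ 2 ∂μ = (∫ g, ‖chi π g‖ ^ 4 ∂μ) - 1 := by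
  have hcc : Continuous fun g => ‖chi π g‖ := (cont_chi hc).norm
  have e : (fun g => (‖chi π g‖ ^ 2 - 1) ^ 2) = fun g => (‖chi π g‖ ^ 4 - 2 * ‖chi π g‖ ^ 2) + 1 := by
    funext g
    ring
  have i4 : Integrable (fun g => ‖chi π g‖ ^ 4) μ := intg (hcc.pow 4)
  have i2 : Integrable (fun g => 2 * ‖chi π g‖ ^ 2) μ := (intg (hcc.pow 2)).const_mul 2
  rw [e, integral_add (f := fun g => ‖chi π g‖ ^ 4 - 2 * ‖chi π g‖ ^ 2) (i4.sub i2)
    (integrable_const _), integral_sub i4 i2, integral_const_mul, int_sq hc hs hn]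
  simp
  ring

/-- the fourth moment is larger than one -/
theorem int_four {G : Type} [Group G] [TopologicalSpace G] [IsTopologicalGroup G] [CompactSpace G]
    [MeasurableSpace G] [BorelSpace G] {μ : Measure G} [IsProbabilityMeasure μ] [μ.IsHaarMeasure]
    {n : ℕ} {π : G →* Matrix.unitaryGroup (Fin n) ℂ} (hc : Continuous π) (hs : Schur π)
    (hn : 2 ≤ n) : 1 < ∫ g, ‖chi π g‖ ^ 4 ∂μ := by
  have h1 := int_dev (μ := μ) hc hs (by omega)
  have hcc : Continuous fun g => ‖chi π g‖ := (cont_chi hc).norm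
  have h2 : 0 < ∫ g, (‖chi π g‖ ^ 2 - 1) ^ 2 ∂μ := by
    have hcont : Continuous fun g => (‖chi π g‖ ^ 2 - 1) ^ 2 :=
      ((hcc.pow 2).sub continuous_const).pow 2
    refine hcont.integral_pos_of_hasCompactSupport_nonneg_nonzero
      (HasCompactSupport.of_compactSpace _) (fun g => sq_nonneg _) (x := 1) ?_
    rw [chi_one]
    have hn' : (2 : ℝ) ≤ n := by exact_mod_cast hn
    have h3 : ‖((n : ℕ) : ℂ)‖ = n := by simp
    rw [h3]
    have h4 : (0 : ℝ) < (n : ℝ) ^ 2 - 1 := by nlinarith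
    positivity
  linarith

theorem ne_pair {i₀ i₁ : I} {J : Finset I} (h0 : i₀ ∈ J) (h1 : i₁ ∈ J) (hne : i₀ ≠ i₁)
    (hJ : 3 ≤ J.card) : ({i₀, i₁} : Finset I) ⊂ J := by
  refine ⟨?_, fun h => ?_⟩
  · intro i hi
    rcases Finset.mem_insert.1 hi with rfl | hi
    · exact h0
    · rw [Finset.mem_singleton.1 hi]
      exact h1
  · have h2 := Finset.card_le_card h
    have h3 : ({i₀, i₁} : Finset I).card = 2 := Finset.card_pair hne
    omega

/-- **The bound for the mean.** -/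
theorem mean_bd {J : Finset I} {i₀ i₁ : I} (h0 : i₀ ∈ J) (h1 : i₁ ∈ J) (hne : i₀ ≠ i₁)
    (hJ : 3 ≤ J.card) (hPL : ∀ J', J' ⊂ J → PL x μ J') (r : ∀ i, Irr (H i))
    (hn : ∀ i ∈ J, (r i).n ≠ 0) {U : Ultrafilter ℝ} (hU : (U : Filter ℝ) ≤ 𝓝[>] 0) :
    (Pool.Agent.TH553.RS.M (nm K) U fun v => ∏ i ∈ J, ‖(r i).c (x v i)‖) ≤
      1 - ((∫ g, ‖(r i₀).c g‖ ^ 4 ∂(μ i₀)) - 1) / (2 * (((r i₀).n : ℝ) + 1) ^ 2) := by
  classical
  have hcn : ∀ i, Continuous fun g => ‖(r i).c g‖ := fun i => (r i).cc.norm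
  have hcn2 : ∀ i, Continuous fun g => ‖(r i).c g‖ ^ 2 := fun i => (hcn i).pow 2
  have hd2 : ∀ i, Dec fun g => ((‖(r i).c g‖ ^ 2 : ℝ) : ℂ) := fun i => dec_sq (μ i) (r i).cont
  have hsq : ∀ J', J' ⊂ J → (Pool.Agent.TH553.RS.M (nm K) U fun v =>
      ∏ i ∈ J', ‖(r i).c (x v i)‖ ^ 2) = 1 := by
    intro J' hJ'
    rw [(hPL J' hJ').M hU (ψ := fun i g => ‖(r i).c g‖ ^ 2) hcn2 hd2]
    exact Finset.prod_eq_one fun i hi => int_sq (r i).cont (r i).schur (hn i (hJ'.1 hi))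
  set a : HeightOneSpectrum (𝓞 K) → ℝ := fun v => ‖(r i₀).c (x v i₀)‖ with ha
  set b : HeightOneSpectrum (𝓞 K) → ℝ := fun v => ‖(r i₁).c (x v i₁)‖ with hb
  set J2 : Finset I := (J.erase i₁).erase i₀ with hJ2
  set c : HeightOneSpectrum (𝓞 K) → ℝ := fun v => ∏ i ∈ J2, ‖(r i).c (x v i)‖ with hc
  have h01 : i₀ ∈ J.erase i₁ := Finset.mem_erase.2 ⟨hne, h0⟩
  have hba : Bd a := by
    have := bd_prod (x := x) (J := {i₀}) (ψ := fun i g => ‖(r i).c g‖) hcn
    simpa using this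
  have hbb : Bd b := by
    have := bd_prod (x := x) (J := {i₁}) (ψ := fun i g => ‖(r i).c g‖) hcn
    simpa using this
  have hbc : Bd c := bd_prod (x := x) (J := J2) (ψ := fun i g => ‖(r i).c g‖) hcn
  have hs1 : J.erase i₁ ⊂ J := Finset.erase_ssubset h1
  have hs2 : J2 ⊂ J := lt_of_le_of_lt (Finset.erase_subset _ _) hs1
  have hs3 : ({i₀, i₁} : Finset I) ⊂ J := ne_pair h0 h1 hne hJ
  have hs4 : ({i₁} : Finset I) ⊂ J := by
    refine ⟨Finset.singleton_subset_iff.2 h1, fun h => ?_⟩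
    have := Finset.card_le_card h
    rw [Finset.card_singleton] at this
    omega
  have e0 : (fun v => ∏ i ∈ J, ‖(r i).c (x v i)‖) = fun v => a v * b v * c v := by
    funext v
    rw [← Finset.mul_prod_erase J _ h1, ← Finset.mul_prod_erase (J.erase i₁) _ h01]
    simp only [ha, hb, hc, hJ2]
    ring
  rw [e0]
  refine abs_ineq (sysF K) hU hba hbb hbc (fun v => norm_nonneg _) (fun v => norm_chi _ _)
    ?_ ?_ ?_ ?_ ?_
  · rw [← hsq _ hs3]
    congr 1
    funext v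
    rw [Finset.prod_pair hne]
  · rw [← hsq _ hs2]
    congr 1
    funext v
    simp only [hc]
    rw [← Finset.prod_pow]
  · rw [← hsq _ hs1]
    congr 1
    funext v
    rw [← Finset.mul_prod_erase (J.erase i₁) _ h01]
    simp only [ha, hc, hJ2]
    rw [← Finset.prod_pow]
  · rw [← hsq _ hs4]
    congr 1
    funext v
    rw [Finset.prod_singleton]
  · -- the deviation
    set ψ : ∀ i, H i → ℝ := fun i g => if i = i₀ then (‖(r i).c g‖ ^ 2 - 1) ^ 2 else
      ‖(r i).c g‖ ^ 2 with hψ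
    have h2 := (hPL _ hs3).M hU (ψ := ψ) (fun i => by
      rw [hψ]
      simp only
      split_ifs
      · exact ((hcn2 i).sub continuous_const).pow 2
      · exact hcn2 i) fun i => by
        rw [hψ]
        simp only
        split_ifs
        · exact dec_dev (μ i) (r i).cont
        · exact hd2 i
    rw [Finset.prod_pair hne] at h2
    simp only [Finset.prod_pair hne] at h2
    rw [hψ] at h2
    simp only [if_true, if_neg hne.symm] at h2
    have h3 : ∫ g, (‖(r i₀).c g‖ ^ 2 - 1) ^ 2 ∂(μ i₀) = (∫ g, ‖(r i₀).c g‖ ^ 4 ∂(μ i₀)) - 1 :=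
      int_dev (r i₀).cont (r i₀).schur (hn i₀ h0)
    have h4 : ∫ g, ‖(r i₁).c g‖ ^ 2 ∂(μ i₁) = 1 := int_sq (r i₁).cont (r i₁).schur (hn i₁ h1)
    rw [h3, h4, mul_one] at h2
    exact h2

end

end Pool.Agent.T2H24.GR
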