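import Pool.Agent.T2H24.GR.Tens

set_option autoImplicit false
set_option linter.unusedSectionVars false
set_option linter.unusedVariables false

/-!
# Products of class functions of the factors
-/

namespace Pool.Agent.T2H24.GR

open Filter Topology ComplexConjugate NumberField IsDedekindDomain MeasureTheory
  Pool.Agent.W540.BE Pool.Agent.TH553.RS Pool.Agent.TH553.ST Pool.Agent.H341R2
open scoped Matrix

/-- a continuous irreducible unitary representation -/
structure Irr (G : Type) [Group G] [TopologicalSpace G] : Type where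
  n : ℕ
  ρ : G →* Matrix.unitaryGroup (Fin n) ℂ
  cont : Continuous ρ
  schur : Schur ρ

/-- its character -/
noncomputable def Irr.c {G : Type} [Group G] [TopologicalSpace G] (r : Irr G) (g : G) : ℂ :=
  chi r.ρ g

theorem Irr.cc {G : Type} [Group G] [TopologicalSpace G] (r : Irr G) : Continuous r.c :=
  cont_chi r.cont

theorem dec_irr {G : Type} [Group G] [TopologicalSpace G] {f : G → ℂ} (h : Dec f) :
    ∃ (J : Type) (_ : Fintype J) (r : J → Irr G) (a : J → ℂ), ∀ g, f g = ∑ j, a j * (r j).c g := by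
  obtain ⟨J, hJ, m, ρ, a, h1, h2⟩ := h
  exact ⟨J, hJ, fun j => ⟨m j, ρ j, (h1 j).1, (h1 j).2⟩, a, h2⟩

theorem dec_c {G : Type} [Group G] [TopologicalSpace G] (r : Irr G) : Dec r.c :=
  ⟨Unit, inferInstance, fun _ => r.n, fun _ => r.ρ, fun _ => 1, fun _ => ⟨r.cont, r.schur⟩,
    fun g => by simp [Irr.c]⟩

theorem dec_cont {G : Type} [Group G] [TopologicalSpace G] {f : G → ℂ} (h : Dec f) :
    Continuous f := by
  obtain ⟨J, _, r, a, h1⟩ := dec_irr h
  have : f = fun g => ∑ j, a j * (r j).c g := funext h1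
  rw [this]
  exact continuous_finsetSum _ fun j _ => continuous_const.mul (r j).cc

section

variable {G : Type} [Group G] [TopologicalSpace G] [IsTopologicalGroup G] [CompactSpace G]
  [MeasurableSpace G] [BorelSpace G] (μ : Measure G) [IsProbabilityMeasure μ] [μ.IsHaarMeasure]

include μ in
theorem dec_of_coef {f : G → ℂ} (h : Coef f) (hcl : ∀ g k, f (k * g * k⁻¹) = f g) : Dec f := by
  have h1 := dec_cav (μ := μ) h
  have h2 : cav μ f = f := funext fun g => cav_class hcl g
  rwa [h2] at h1

theorem coef_chi {n : ℕ} {π : G →* Matrix.unitaryGroup (Fin n) ℂ} (hc : Continuous π) :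
    Coef (chi π) :=
  ⟨Fin n, inferInstance, inferInstance, π, 1, hc, fun g => by rw [Matrix.one_mul]; rfl⟩

theorem coef_sq {n : ℕ} {π : G →* Matrix.unitaryGroup (Fin n) ℂ} (hc : Continuous π) :
    Coef fun g => ((‖chi π g‖ ^ 2 : ℝ) : ℂ) := by
  have h := (coef_chi hc).mul (coef_chi hc).conj
  refine (congrArg Coef (funext fun g => ?_)).mp h
  rw [Complex.mul_conj, Complex.normSq_eq_norm_sq]

include μ in
theorem dec_sq {n : ℕ} {π : G →* Matrix.unitaryGroup (Fin n) ℂ} (hc : Continuous π) :
    Dec fun g => ((‖chi π g‖ ^ 2 : ℝ) : ℂ) :=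
  dec_of_coef μ (coef_sq hc) fun g k => by rw [chi_cls]

include μ in
theorem dec_dev {n : ℕ} {π : G →* Matrix.unitaryGroup (Fin n) ℂ} (hc : Continuous π) :
    Dec fun g => (((‖chi π g‖ ^ 2 - 1) ^ 2 : ℝ) : ℂ) := by
  have h1 := (coef_sq hc).add (Coef.const (-1))
  have h2 := h1.mul h1
  refine dec_of_coef μ ((congrArg Coef (funext fun g => ?_)).mp h2) fun g k => by rw [chi_cls]
  push_cast
  ring

end

section

variable {K : Type} [Field K] [NumberField K] {I : Type} [Fintype I] [DecidableEq I]
  {H : I → Type} [∀ i, Group (H i)] [∀ i, TopologicalSpace (H i)]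
  [∀ i, IsTopologicalGroup (H i)] [∀ i, CompactSpace (H i)]
  [∀ i, MeasurableSpace (H i)] [∀ i, BorelSpace (H i)] {μ : ∀ i, Measure (H i)}
  [∀ i, IsProbabilityMeasure (μ i)] [∀ i, (μ i).IsHaarMeasure]
  {x : HeightOneSpectrum (𝓞 K) → ∀ i, H i}

/-- the product law on `J` -/
def PL (x : HeightOneSpectrum (𝓞 K) → ∀ i, H i) (μ : ∀ i, Measure (H i)) (J : Finset I) : Prop :=
  ∀ r : ∀ i, Irr (H i), Tendsto (mn fun v => ∏ i ∈ J, (r i).c (x v i)) atTop
    (𝓝 (∏ i ∈ J, ∫ g, (r i).c g ∂(μ i)))

theorem PL.dec {J : Finset I} (h : PL x μ J) {φ : ∀ i, H i → ℂ} (hφ : ∀ i, Dec (φ i)) :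
    Tendsto (mn fun v => ∏ i ∈ J, φ i (x v i)) atTop (𝓝 (∏ i ∈ J, ∫ g, φ i g ∂(μ i))) := by
  have key : ∀ S : Finset I, ∀ φ : ∀ i, H i → ℂ, (∀ i ∈ S, Dec (φ i)) →
      (∀ i, i ∉ S → ∃ r : Irr (H i), φ i = r.c) →
      Tendsto (mn fun v => ∏ i ∈ J, φ i (x v i)) atTop (𝓝 (∏ i ∈ J, ∫ g, φ i g ∂(μ i))) := by
    intro S
    induction S using Finset.induction_on with
    | empty =>
      intro φ _ h2
      choose r hr using fun i => h2 i (Finset.notMem_empty i)
      simp only [hr]
      exact h r
    | insert i₀ S hi₀ ih =>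
      intro φ h1 h2
      by_cases hJ : i₀ ∈ J
      · obtain ⟨J', _, r', a, hra⟩ := dec_irr (h1 i₀ (Finset.mem_insert_self _ _))
        have hup : ∀ k : J', Tendsto (mn fun v => ∏ i ∈ J,
            (Function.update φ i₀ (r' k).c) i (x v i)) atTop
            (𝓝 (∏ i ∈ J, ∫ g, (Function.update φ i₀ (r' k).c) i g ∂(μ i))) := by
          intro k
          refine ih _ (fun i hi => ?_) fun i hi => ?_
          · have hne : i ≠ i₀ := fun h => hi₀ (h ▸ hi)
            rw [Function.update_of_ne hne]
            exact h1 i (Finset.mem_insert_of_mem hi)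
          · by_cases hne : i = i₀
            · subst hne
              rw [Function.update_self]
              exact ⟨r' k, rfl⟩
            · rw [Function.update_of_ne hne]
              exact h2 i fun h => (Finset.mem_insert.1 h).elim hne hi
        have hprod : ∀ (k : J') (g : ∀ i, H i),
            ∏ i ∈ J, (Function.update φ i₀ (r' k).c) i (g i) =
              (r' k).c (g i₀) * ∏ i ∈ J.erase i₀, φ i (g i) := by
          intro k g
          rw [← Finset.mul_prod_erase J _ hJ, Function.update_self]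
          congr 1
          refine Finset.prod_congr rfl fun i hi => ?_
          rw [Function.update_of_ne (Finset.ne_of_mem_erase hi)]
        have hint : ∀ k : J', ∏ i ∈ J, ∫ g, (Function.update φ i₀ (r' k).c) i g ∂(μ i) =
            (∫ g, (r' k).c g ∂(μ i₀)) * ∏ i ∈ J.erase i₀, ∫ g, φ i g ∂(μ i) := by
          intro k
          rw [← Finset.mul_prod_erase J _ hJ, Function.update_self]
          congr 1
          refine Finset.prod_congr rfl fun i hi => ?_
          rw [Function.update_of_ne (Finset.ne_of_mem_erase hi)]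
        have h3 : ∀ v, ∏ i ∈ J, φ i (x v i) = ∑ k, a k * ∏ i ∈ J,
            (Function.update φ i₀ (r' k).c) i (x v i) := by
          intro v
          simp only [hprod]
          rw [← Finset.mul_prod_erase J _ hJ, hra, Finset.sum_mul]
          exact Finset.sum_congr rfl fun k _ => by ring
        have h4 : ∏ i ∈ J, ∫ g, φ i g ∂(μ i) = ∑ k, a k *
            ∏ i ∈ J, ∫ g, (Function.update φ i₀ (r' k).c) i g ∂(μ i) := by
          simp only [hint]
          rw [← Finset.mul_prod_erase J _ hJ]
          have h5 : ∫ g, φ i₀ g ∂(μ i₀) = ∑ k, a k * ∫ g, (r' k).c g ∂(μ i₀) := by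
            simp only [hra]
            rw [integral_finsetSum _ fun k _ => (intg (r' k).cc).const_mul _]
            exact Finset.sum_congr rfl fun k _ => integral_const_mul _ _
          rw [h5, Finset.sum_mul]
          exact Finset.sum_congr rfl fun k _ => by ring
        simp only [h3, h4]
        have h6 : (mn fun v => ∑ k, a k * ∏ i ∈ J, (Function.update φ i₀ (r' k).c) i (x v i)) =
            fun N => ∑ k, a k * mn (fun v => ∏ i ∈ J,
              (Function.update φ i₀ (r' k).c) i (x v i)) N := by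
          funext N
          rw [mn_sum]
          exact Finset.sum_congr rfl fun k _ => mn_mul _ _ _
        rw [h6]
        exact tendsto_finsetSum _ fun k _ => (hup k).const_mul _
      · -- the factor does not occur
        set r₀ : Irr (H i₀) := ⟨1, 1, continuous_const, fun A _ => ⟨A 0 0, by
          ext i j
          rw [Subsingleton.elim i 0, Subsingleton.elim j 0]
          simp⟩⟩ with hr₀
        have h3 := ih (Function.update φ i₀ r₀.c) (fun i hi => by
          have hne : i ≠ i₀ := fun h => hi₀ (h ▸ hi)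
          rw [Function.update_of_ne hne]
          exact h1 i (Finset.mem_insert_of_mem hi)) fun i hi => by
            by_cases hne : i = i₀
            · subst hne
              rw [Function.update_self]
              exact ⟨r₀, rfl⟩
            · rw [Function.update_of_ne hne]
              exact h2 i fun h => (Finset.mem_insert.1 h).elim hne hi
        have h4 : ∀ v, ∏ i ∈ J, (Function.update φ i₀ r₀.c) i (x v i) = ∏ i ∈ J, φ i (x v i) :=
          fun v => Finset.prod_congr rfl fun i hi => by
            have hne : i ≠ i₀ := fun h => hJ (h ▸ hi)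
            rw [Function.update_of_ne hne]
        have h5 : ∏ i ∈ J, ∫ g, (Function.update φ i₀ r₀.c) i g ∂(μ i) =
            ∏ i ∈ J, ∫ g, φ i g ∂(μ i) :=
          Finset.prod_congr rfl fun i hi => by
            have hne : i ≠ i₀ := fun h => hJ (h ▸ hi)
            rw [Function.update_of_ne hne]
        simp only [h4, h5] at h3
        exact h3
  exact key Finset.univ φ (fun i _ => hφ i) fun i hi => absurd (Finset.mem_univ i) hi

theorem bd_prod {J : Finset I} {ψ : ∀ i, H i → ℝ} (hψ : ∀ i, Continuous (ψ i)) :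
    Bd fun v => ∏ i ∈ J, ψ i (x v i) := by
  choose C hC using fun i => (isCompact_univ (X := H i)).exists_bound_of_continuousOn
    (hψ i).continuousOn
  refine ⟨∏ i ∈ J, C i, fun v => ?_⟩
  rw [Finset.abs_prod]
  exact Finset.prod_le_prod (fun i _ => abs_nonneg _) fun i _ => hC i _ (Set.mem_univ _)

/-- means of products -/
theorem PL.M {J : Finset I} (h : PL x μ J) {U : Ultrafilter ℝ} (hU : (U : Filter ℝ) ≤ 𝓝[>] 0)
    {ψ : ∀ i, H i → ℝ} (hψ : ∀ i, Continuous (ψ i)) (hd : ∀ i, Dec fun g => ((ψ i g : ℝ) : ℂ)) :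
    (Pool.Agent.TH553.RS.M (nm K) U fun v => ∏ i ∈ J, ψ i (x v i)) =
      ∏ i ∈ J, ∫ g, ψ i g ∂(μ i) := by
  refine M_of_mn hU (bd_prod hψ) ?_
  have h1 := h.dec hd
  have h2 := (Complex.continuous_re.tendsto _).comp h1
  have h3 : (∏ i ∈ J, ∫ g, ((ψ i g : ℝ) : ℂ) ∂(μ i)) = ((∏ i ∈ J, ∫ g, ψ i g ∂(μ i) : ℝ) : ℂ) := by
    push_cast
    exact Finset.prod_congr rfl fun i _ => integral_ofReal
  rw [h3, Complex.ofReal_re] at h2
  refine h2.congr fun N => ?_
  simp only [Function.comp]
  rw [re_mn]
  congr 1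
  funext v
  rw [← Complex.ofReal_prod, Complex.ofReal_re]

end

end Pool.Agent.T2H24.GR
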