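import Pool.Agent.TH553.ST.PW2

set_option autoImplicit false
set_option linter.unusedSectionVars false
set_option linter.unusedVariables false

/-!
# Tensor products of finitely many representations
-/

namespace Pool.Agent.T2H24.GR

open Complex Filter Topology ComplexConjugate NumberField IsDedekindDomain MeasureTheory
  Pool.Agent.W540.BE Pool.Agent.TH553.RS Pool.Agent.TH553.ST Pool.Agent.H341R2
open scoped Matrix

section

variable {I : Type} [Fintype I] [DecidableEq I] {n : I → ℕ}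

/-- the tensor product of matrices -/
noncomputable def tens (A : ∀ i, Matrix (Fin (n i)) (Fin (n i)) ℂ) :
    Matrix (∀ i, Fin (n i)) (∀ i, Fin (n i)) ℂ :=
  Matrix.of fun a b => ∏ i, A i (a i) (b i)

theorem tens_mul (A B : ∀ i, Matrix (Fin (n i)) (Fin (n i)) ℂ) :
    tens A * tens B = tens fun i => A i * B i := by
  ext a b
  rw [Matrix.mul_apply]
  simp only [tens, Matrix.of_apply, Matrix.mul_apply]
  rw [Finset.prod_univ_sum, Fintype.piFinset_univ]
  exact Finset.sum_congr rfl fun c _ => Finset.prod_mul_distrib.symm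

theorem tens_one : tens (fun i => (1 : Matrix (Fin (n i)) (Fin (n i)) ℂ)) = 1 := by
  ext a b
  simp only [tens, Matrix.of_apply]
  by_cases h : a = b
  · subst h
    simp
  · rw [Matrix.one_apply_ne h]
    obtain ⟨i, hi⟩ := Function.ne_iff.1 h
    exact Finset.prod_eq_zero (Finset.mem_univ i) (Matrix.one_apply_ne hi)

theorem tens_star (A : ∀ i, Matrix (Fin (n i)) (Fin (n i)) ℂ) :
    star (tens A) = tens fun i => star (A i) := by
  ext a b
  rw [Matrix.star_apply]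
  simp only [tens, Matrix.of_apply, Matrix.star_apply]
  rw [star_prod]

theorem tens_trace (A : ∀ i, Matrix (Fin (n i)) (Fin (n i)) ℂ) :
    (tens A).trace = ∏ i, (A i).trace := by
  unfold Matrix.trace
  rw [Finset.prod_univ_sum, Fintype.piFinset_univ]
  rfl

theorem tens_unitary {A : ∀ i, Matrix (Fin (n i)) (Fin (n i)) ℂ}
    (h : ∀ i, A i ∈ Matrix.unitaryGroup (Fin (n i)) ℂ) :
    tens A ∈ Matrix.unitaryGroup (∀ i, Fin (n i)) ℂ := by
  rw [Matrix.mem_unitaryGroup_iff, tens_star, tens_mul]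
  rw [← tens_one]
  congr 1
  funext i
  exact Matrix.mem_unitaryGroup_iff.1 (h i)

end

section

variable {K : Type} [Field K] [NumberField K] {I : Type} [Fintype I] [DecidableEq I]
  {H : I → Type} [∀ i, Group (H i)] {n : I → ℕ}

/-- the product of the characters -/
noncomputable def ch (π : ∀ i, H i →* Matrix.unitaryGroup (Fin (n i)) ℂ) (g : ∀ i, H i) : ℂ :=
  ∏ i, chi (π i) (g i)

/-- the L-function -/
noncomputable def LT (π : ∀ i, H i →* Matrix.unitaryGroup (Fin (n i)) ℂ)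
    (x : HeightOneSpectrum (𝓞 K) → ∀ i, H i) (s : ℂ) : ℂ :=
  ∏' v, (Matrix.det (1 - (((nm K v : ℕ) : ℂ) ^ (-s)) •
    tens fun i => (π i (x v i) : Matrix (Fin (n i)) (Fin (n i)) ℂ)))⁻¹

/-- the size -/
noncomputable def szT (π : ∀ i, H i →* Matrix.unitaryGroup (Fin (n i)) ℂ)
    (x : HeightOneSpectrum (𝓞 K) → ∀ i, H i) (τ ε : ℝ) : ℝ :=
  Real.log ‖LT π x (1 + τ * Complex.I + ε)‖ / Real.log (1 / ε)

theorem exists_alT (π : ∀ i, H i →* Matrix.unitaryGroup (Fin (n i)) ℂ)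
    (x : HeightOneSpectrum (𝓞 K) → ∀ i, H i) :
    ∃ α : HeightOneSpectrum (𝓞 K) → Fin (Fintype.card (∀ i, Fin (n i))) → ℂ,
      (∀ v j, ‖α v j‖ = 1) ∧ (∀ v, ∑ j, α v j = ch π (x v)) ∧
      ∀ v (c : ℂ), Matrix.det (1 - c • tens fun i => (π i (x v i) : Matrix (Fin (n i)) (Fin (n i)) ℂ)) =
        ∏ j, (1 - α v j * c) := by
  choose α h1 h2 h3 using fun v => exists_eig (tens_unitary (fun i => (π i (x v i)).2))
  refine ⟨α, h1, fun v => ?_, h3⟩
  rw [h2 v, tens_trace]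
  rfl

theorem norm_ch (π : ∀ i, H i →* Matrix.unitaryGroup (Fin (n i)) ℂ) (g : ∀ i, H i) :
    ‖ch π g‖ ≤ ∏ i, (n i : ℝ) := by
  unfold ch
  rw [norm_prod]
  exact Finset.prod_le_prod (fun i _ => norm_nonneg _) fun i _ => norm_chi (π i) _

theorem size_T (π : ∀ i, H i →* Matrix.unitaryGroup (Fin (n i)) ℂ)
    (x : HeightOneSpectrum (𝓞 K) → ∀ i, H i) (τ : ℝ) :
    (∀ᶠ ε : ℝ in 𝓝[>] 0, LT π x (1 + τ * Complex.I + ε) ≠ 0) ∧
    Tendsto (fun ε : ℝ => qt (nm K) (fun v =>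
      (ch π (x v) * ((nm K v : ℕ) : ℂ) ^ (-(τ * Complex.I : ℂ))).re) ε - szT π x τ ε)
      (𝓝[>] 0) (𝓝 0) := by
  obtain ⟨α, h1, h2, h3⟩ := exists_alT π x
  set B : HeightOneSpectrum (𝓞 K) → Polynomial ℂ := fun v =>
    ∏ j, (1 - Polynomial.C (α v j) * Polynomial.X) with hB
  have hBe : ∀ v z, (B v).eval z = ∏ j, (1 - α v j * z) := by
    intro v z
    rw [hB]
    simp [Polynomial.eval_prod]
  exact size_unit (sysF K) α (Filter.Eventually.of_forall h1)
    (t := fun v => ch π (x v)) (C := ∏ i, (n i : ℝ)) (fun v => norm_ch π _)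
    (Filter.Eventually.of_forall h2) τ B (Filter.Eventually.of_forall hBe)
    (fun v => by
      rw [hBe, Finset.prod_ne_zero_iff]
      intro j _ h4
      have h5 : ‖α v j * ((nm K v : ℕ) : ℂ) ^ (-(1 + τ * Complex.I : ℂ))‖ = 1 := by
        have : α v j * ((nm K v : ℕ) : ℂ) ^ (-(1 + τ * Complex.I : ℂ)) = 1 := by
          linear_combination -h4
        rw [this, norm_one]
      rw [norm_mul, h1, one_mul] at h5
      have h6 := cpow_le_half normSys v (s := 1 + τ * Complex.I) (by simp)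
      linarith) (LT π x)
    (fun s _ => by
      unfold LT
      refine tprod_congr fun v => ?_
      rw [h3, hBe])

theorem order_T {π : ∀ i, H i →* Matrix.unitaryGroup (Fin (n i)) ℂ}
    {x : HeightOneSpectrum (𝓞 K) → ∀ i, H i}
    {τ : ℝ} {Λ : ℂ → ℂ} (h1 : MeromorphicAt Λ (1 + τ * Complex.I))
    (h2 : ∀ᶠ s in 𝓝 ((1 : ℂ) + τ * Complex.I), (1 : ℝ) < s.re → Λ s = LT π x s) :
    ∃ m : ℤ, meromorphicOrderAt Λ (1 + τ * Complex.I) = m ∧
      Tendsto (szT π x τ) (𝓝[>] 0) (𝓝 (-(m : ℝ))) :=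
  order_unit (size_T π x τ).1 h1 h2

/-- averages from orders -/
theorem avg_T {π : ∀ i, H i →* Matrix.unitaryGroup (Fin (n i)) ℂ}
    {x : HeightOneSpectrum (𝓞 K) → ∀ i, H i}
    (h : ∀ τ : ℝ, ∃ Λ : ℂ → ℂ, MeromorphicAt Λ (1 + τ * Complex.I) ∧
      (∀ᶠ s in 𝓝 ((1 : ℂ) + τ * Complex.I), (1 : ℝ) < s.re → Λ s = LT π x s) ∧
      meromorphicOrderAt Λ (1 + τ * Complex.I) = ((0 : ℤ) : WithTop ℤ)) :
    Tendsto (mn fun v => ch π (x v)) atTop (𝓝 0) := by
  obtain ⟨α, h1, h2, h3⟩ := exists_alT π x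
  have h4 := taub h1 (L := LT π x) (fun s _ => by
    unfold LT
    exact tprod_congr fun v => by rw [h3]) (fun τ => by
    obtain ⟨Λ, h5, h6, h7⟩ := h τ
    obtain ⟨g, h10, h11, h12⟩ := (meromorphicOrderAt_eq_int_iff h5).1 h7
    refine ⟨g, h10, h11, ?_⟩
    rw [eventually_nhdsWithin_iff] at h12
    filter_upwards [h12, h6] with s h13 h14 h15
    have hne : s ≠ 1 + τ * Complex.I := by
      intro h
      rw [h] at h15
      simp at h15
    have h16 := h13 hne
    rw [zpow_zero, one_smul] at h16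
    rw [← h16, h14 h15])
  refine h4.congr fun N => ?_
  congr 1
  funext v
  exact h2 v

end

end Pool.Agent.T2H24.GR
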